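import Mathlib
import Pool.Graph.R_seed8.W608.PR.Final
import Pool.Graph.R_seed8.TH176.FB.J9
import Pool.Graph.R_seed8.TH176.RK.ToFat
import Pool.Graph.R_pool_sql_team_seeded_f72693b1.W608.PR.Proj

set_option autoImplicit false

/-!
# From fat points in affine space to power ideals
-/

namespace Pool.Agent.H93.PI

open MvPolynomial H932R5

theorem aeval_scale {K : Type} [Field K] {σ τ : Type} [Fintype σ] (c : K)
    (g : σ → MvPolynomial τ K) {D : ℕ} {F : MvPolynomial σ K} (hF : F.IsHomogeneous D) :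
    aeval (fun j => C c * g j) F = C (c ^ D) * aeval g F := by
  rw [F.as_sum, map_sum, map_sum, Finset.mul_sum]
  refine Finset.sum_congr rfl fun s hs => ?_
  have hd : ∑ j, s j = D := by
    have h := hF (mem_support_iff.1 hs)
    rw [← h, ← Finsupp.degree_eq_sum]
    exact DFunLike.congr_fun Finsupp.degree_eq_weight_one s
  rw [aeval_monomial, aeval_monomial, Finsupp.prod_fintype _ _ (fun _ => pow_zero _),
    Finsupp.prod_fintype _ _ (fun _ => pow_zero _)]
  simp only [mul_pow]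
  rw [Finset.prod_mul_distrib, Finset.prod_pow_eq_pow_sum, hd, C_pow]
  ring

theorem vanish_deh {K : Type} [Field K] {E D m : ℕ} (q : Fin (E + 2) → K) (hq : q 0 ≠ 0)
    {F : MvPolynomial (Fin (E + 2)) K} (hF : F.IsHomogeneous D)
    (h : TH176.FB.shift q F ∈ idealOfVars (Fin (E + 2)) K ^ m) :
    deh K E F ∈ pt (fun j : Fin (E + 1) => q j.succ / q 0) ^ m := by
  obtain ⟨χ, hχ⟩ : ∃ χ : MvPolynomial (Fin (E + 2)) K →ₐ[K] MvPolynomial (Fin (E + 1)) K,
      χ = aeval (fun j => C (q 0) * (Fin.cons 1 X : Fin (E + 2) → MvPolynomial (Fin (E + 1)) K) j) :=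
    ⟨_, rfl⟩
  have h1 : χ F = C (q 0 ^ D) * deh K E F := by
    rw [hχ, aeval_scale _ _ hF]
    rfl
  have h2 : χ F ∈ pt (fun j : Fin (E + 1) => q j.succ / q 0) ^ m := by
    have e1 : χ F = (χ.comp (TH176.FB.shift (fun i => - q i))) (TH176.FB.shift q F) := by
      rw [AlgHom.comp_apply, TH176.RK.ToFat_.shift_shift]
    rw [e1]
    have h3 := Ideal.mem_map_of_mem (χ.comp (TH176.FB.shift (fun i => - q i))) h
    rw [Ideal.map_pow] at h3
    refine Ideal.pow_right_mono ?_ m h3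
    unfold idealOfVars
    rw [Ideal.map_span, Ideal.span_le]
    rintro _ ⟨_, ⟨j, rfl⟩, rfl⟩
    have e2 : (χ.comp (TH176.FB.shift (fun i => - q i))) (X j) =
        C (q 0) * (Fin.cons 1 X : Fin (E + 2) → MvPolynomial (Fin (E + 1)) K) j - C (q j) := by
      rw [AlgHom.comp_apply]
      unfold TH176.FB.shift
      rw [aeval_X, map_add, hχ, aeval_X, algHom_C, sub_eq_add_neg, ← C_neg]
      rfl
    rw [SetLike.mem_coe, e2]
    refine Fin.cases ?_ (fun j => ?_) j
    · rw [Fin.cons_zero, mul_one, sub_self]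
      exact Ideal.zero_mem _
    · rw [Fin.cons_succ]
      have e3 : (C (q 0) * X j - C (q j.succ) : MvPolynomial (Fin (E + 1)) K) =
          C (q 0) * (X j - C (q j.succ / q 0)) := by
        rw [mul_sub, ← C_mul, mul_div_cancel₀ _ hq]
      rw [e3]
      exact Ideal.mul_mem_left _ _ (Ideal.subset_span ⟨j, rfl⟩)
  have h3 : deh K E F = C ((q 0 ^ D)⁻¹) * χ F := by
    rw [h1, ← mul_assoc, ← C_mul, inv_mul_cancel₀ (pow_ne_zero _ hq), C_1, one_mul]
  rw [h3]
  exact Ideal.mul_mem_left _ _ h2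

theorem vanish_shift {K : Type} [Field K] {E D m : ℕ} (q : Fin (E + 2) → K) (hq : q 0 ≠ 0)
    {F : MvPolynomial (Fin (E + 2)) K} (hF : F.IsHomogeneous D)
    (h : deh K E F ∈ pt (fun j : Fin (E + 1) => q j.succ / q 0) ^ m) :
    TH176.FB.shift q F ∈ idealOfVars (Fin (E + 2)) K ^ m := by
  have h1 := Ideal.mem_map_of_mem (TH176.FB.shift q) ((mem_hI_iff hF).2 h)
  rw [Ideal.map_pow] at h1
  refine Ideal.pow_right_mono ?_ m h1
  unfold hI
  rw [Ideal.map_span, Ideal.span_le]
  rintro _ ⟨_, ⟨j, rfl⟩, rfl⟩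
  have e2 : TH176.FB.shift q (X j.succ - C (q j.succ / q 0) * X 0) =
      X j.succ - C (q j.succ / q 0) * X 0 := by
    unfold TH176.FB.shift
    rw [map_sub, map_mul, aeval_X, aeval_X, algHom_C]
    have e3 : (C (q j.succ / q 0) * C (q 0) : MvPolynomial (Fin (E + 2)) K) = C (q j.succ) := by
      rw [← C_mul, div_mul_cancel₀ _ hq]
    change X j.succ + C (q j.succ) - C (q j.succ / q 0) * (X 0 + C (q 0)) = _
    rw [mul_add, e3]
    ring
  rw [SetLike.mem_coe, e2]
  exact Ideal.sub_mem _ (Ideal.subset_span ⟨_, rfl⟩)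
    (Ideal.mul_mem_left _ _ (Ideal.subset_span ⟨_, rfl⟩))

theorem fat_eq {K : Type} [Field K] {E r : ℕ} (D : ℕ) (w : Fin r → ℕ)
    (p : Fin r → Fin (E + 2) → K) (hp : ∀ i, p i 0 ≠ 0) :
    TH176.FB.fat D w p = Vd D w (fun i (j : Fin (E + 1)) => p i j.succ / p i 0) := by
  ext F
  rw [mem_Vd, mem_Z]
  constructor
  · rintro ⟨hF, h⟩
    exact ⟨hF, fun i => vanish_deh (p i) (hp i) hF ((mem_pow_idealOfVars_iff' _ _).2 (h i))⟩
  · rintro ⟨hF, h⟩
    exact ⟨hF, fun i => (mem_pow_idealOfVars_iff' _ _).1 (vanish_shift (p i) (hp i) hF (h i))⟩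

/-- The Hilbert function of the quotient of `ℂ[x_1, …, x_n]` by the ideal generated by the `d`-th
powers of the linear forms `∑ i, a (s, i) * x_i`, in degree `k`. -/
noncomputable def hilb {n r : ℕ} (d : ℕ) (a : Fin r × Fin n → ℂ) (k : ℕ) : ℤ :=
  (Module.finrank ℂ (MvPolynomial.homogeneousSubmodule (Fin n) ℂ k) : ℤ) -
    (Module.finrank ℂ
      ↥(Submodule.restrictScalars ℂ
          (Ideal.span (Set.range fun s : Fin r =>
            (∑ i : Fin n, C (a (s, i)) * X i : MvPolynomial (Fin n) ℂ) ^ d)) ⊓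
        MvPolynomial.homogeneousSubmodule (Fin n) ℂ k) : ℤ)

/-- The coefficient of `t ^ k` in `(1 - t) ^ (-n) * (1 - t ^ d) ^ r`. -/
noncomputable def co (n r d k : ℕ) : ℤ :=
  PowerSeries.coeff k
    ((PowerSeries.mk fun _ => (1 : ℤ)) ^ n * (1 - PowerSeries.X ^ d) ^ r)

open Classical in
/-- The coefficient of `t ^ k` in the series `F_{n,r,d}`, that is, of `(1 - t ^ d) ^ r / (1 - t) ^ n`
truncated at its first coefficient that is not positive. -/
noncomputable def fro (n r d k : ℕ) : ℤ :=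
  if ∀ j ≤ k, 0 < co n r d j then co n r d k else 0

/-- The Hilbert function in the degree `k` and the forms of degree `k` with multiplicity
`k + 1 - d`. -/
theorem hilb_eq_fat {n r : ℕ} (d k : ℕ) (a : Fin r × Fin n → ℂ) :
    hilb d a k = (Module.finrank ℂ (TH176.FB.fat k (fun _ : Fin r => k + 1 - d)
      (fun s i => a (s, i))) : ℤ) := by
  have h1 := TH176.FB.emsalem_iarrobino k (fun _ : Fin r => d) (fun s i => a (s, i))
  have h2 : hilb d a k = (Module.finrank ℂ (MvPolynomial.homogeneousSubmodule (Fin n) ℂ k) : ℤ) -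
    (Module.finrank ℂ (TH176.FB.ik (fun s => TH176.FB.lf (fun i => a (s, i)) ^ d) k) : ℤ) := rfl
  rw [h2, ← h1]
  push_cast
  ring

/-- The value of the Hilbert function in the degree `k`. -/
theorem value {E r d k : ℕ} (hG : d ≤ k → W608.PR.G ℂ E (k + 1 - d) k) :
    ∃ Φ : MvPolynomial (Fin r × Fin (E + 2)) ℂ, Φ ≠ 0 ∧
      ∀ a : Fin r × Fin (E + 2) → ℂ, eval a Φ ≠ 0 → (∀ s, a (s, 0) ≠ 0) ∧
        hilb d a k = max 0 (((k + E + 1).choose (E + 1) : ℤ) -
          (r * (k + 1 - d + E).choose (E + 1) : ℕ)) := by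
  classical
  have hX : (∏ s : Fin r, X (s, (0 : Fin (E + 2))) : MvPolynomial (Fin r × Fin (E + 2)) ℂ) ≠ 0 :=
    Finset.prod_ne_zero_iff.2 fun s _ => X_ne_zero _
  have hsum : ∑ i : Fin r, ((fun _ : Fin r => k + 1 - d) i + E).choose (E + 1) =
      r * (k + 1 - d + E).choose (E + 1) := by
    rw [Finset.sum_const, Finset.card_univ, Fintype.card_fin, smul_eq_mul]
  rcases Nat.lt_or_ge k d with hk | hk
  · refine ⟨_, hX, fun a ha => ?_⟩
    have h1 : ∀ s, a (s, 0) ≠ 0 := by
      intro s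
      rw [map_prod] at ha
      have h2 := Finset.prod_ne_zero_iff.1 ha s (Finset.mem_univ s)
      rwa [eval_X] at h2
    refine ⟨h1, ?_⟩
    rw [hilb_eq_fat, fat_eq _ _ _ h1]
    have h3 := (SurjAt.of_zero (K := ℂ) (E := E) (n := r) (w := fun _ => k + 1 - d)
      (fun _ => by omega) (fun s j => a (s, j.succ) / a (s, 0)) k).finrank
    have h4 : k + 1 - d + E < E + 1 := by omega
    rw [hsum, Nat.choose_eq_zero_of_lt h4, mul_zero, zero_add] at h3
    rw [h3, Nat.choose_eq_zero_of_lt h4, mul_zero, Nat.cast_zero, sub_zero, max_eq_right]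
    positivity
  · obtain ⟨F, hF, hF'⟩ := W608.PR.all_degrees (m := k + 1 - d) (by omega) (hG hk)
      (fun _ : Fin r => k + 1 - d) (fun _ => le_rfl)
    obtain ⟨N, Φ0, hΦ0⟩ := W608.PR.exists_homog F
    refine ⟨Φ0 * ∏ s : Fin r, X (s, (0 : Fin (E + 2))), ?_, fun a ha => ?_⟩
    · -- the polynomial is not zero
      obtain ⟨Q, hQ⟩ : ∃ Q : Fin r × Fin (E + 1) → ℂ, eval Q F ≠ 0 := by
        by_contra hcon
        push Not at hcon
        exact hF (MvPolynomial.funext fun w => by rw [hcon w, map_zero])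
      refine mul_ne_zero (fun h0 => ?_) hX
      have h1 := hΦ0 (fun i => Fin.cons 1 (fun j => Q (i, j))) (fun i => one_ne_zero)
      rw [h0, map_zero] at h1
      simp only [Fin.cons_zero, Fin.cons_succ, div_one, Finset.prod_const_one, one_pow,
        one_mul] at h1
      exact hQ h1.symm
    · rw [map_mul, map_prod] at ha
      have h1 : ∀ s, a (s, 0) ≠ 0 := by
        intro s
        have h2 := Finset.prod_ne_zero_iff.1 (right_ne_zero_of_mul ha) s (Finset.mem_univ s)
        rwa [eval_X] at h2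
      refine ⟨h1, ?_⟩
      have h2 := hΦ0 (fun s i => a (s, i)) h1
      have h3 : eval (fun x : Fin r × Fin (E + 1) => a (x.1, x.2.succ) / a (x.1, 0)) F ≠ 0 := by
        intro h0
        rw [h0, mul_zero] at h2
        exact left_ne_zero_of_mul ha h2
      obtain ⟨h6, h7⟩ := hF' (fun s j => a (s, j.succ) / a (s, 0)) h3 k (Or.inl le_rfl)
      rw [hsum] at h6 h7
      rw [hilb_eq_fat, fat_eq _ _ _ h1]
      rcases Nat.le_total ((k + E + 1).choose (E + 1)) (r * (k + 1 - d + E).choose (E + 1)) with h | h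
      · rw [(h6 h).finrank, Nat.cast_zero, max_eq_left]
        have h8 : (((k + E + 1).choose (E + 1) : ℕ) : ℤ) ≤
            ((r * (k + 1 - d + E).choose (E + 1) : ℕ) : ℤ) := Nat.cast_le.2 h
        linarith
      · have h8 := (h7 h).finrank
        rw [hsum] at h8
        rw [← h8]
        push_cast
        rw [add_sub_cancel_left, max_eq_right]
        positivity

theorem co_eq {E r d k : ℕ} (hd : 1 ≤ d) (hk : k ≤ 2 * d - 1) :
    co (E + 2) r d k = ((k + E + 1).choose (E + 1) : ℤ) -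
      (r * (k + 1 - d + E).choose (E + 1) : ℕ) := by
  have hcard : ∀ j, ((Pool.Agent.TH206.Fro.Mon (E + 2) j).card) = (j + E + 1).choose (E + 1) := by
    intro j
    rw [Pool.Agent.TH206.Fro.card_Mon]
    have h1 : E + 2 + j - 1 = j + (E + 1) := by omega
    rw [h1, Nat.choose_symm_add]
    rfl
  have h5 : Pool.Agent.TH206.Fro.co (E + 2) (fun _ : Fin r => d) k = co (E + 2) r d k := by
    unfold Pool.Agent.TH206.Fro.co co
    rw [Finset.prod_const, Finset.card_univ, Fintype.card_fin]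
  rw [← h5, Pool.Agent.TH206.Fro.co_thm (E + 2) r (2 * d - 1) (fun _ => d) (by omega)
    (fun _ => by omega) k hk, Finset.sum_const, Finset.card_univ, Fintype.card_fin, nsmul_eq_mul,
    hcard k]
  congr 1
  split_ifs with h
  · rw [hcard (k - d)]
    have e : k - d + E + 1 = k + 1 - d + E := by omega
    rw [e]
    push_cast
    ring
  · have e : k + 1 - d + E < E + 1 := by omega
    rw [Nat.choose_eq_zero_of_lt e]
    simp

/-- **The Fröberg–Iarrobino formula in low degrees**, and in all degrees if the quotient vanishes in one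
of them. -/
theorem main_fro {E r d k₀ : ℕ} (hd : 1 ≤ d) (hk₀ : k₀ ≤ 2 * d - 1)
    (hG : ∀ k, d ≤ k → k ≤ k₀ → W608.PR.G ℂ E (k + 1 - d) k) :
    ∃ Φ : MvPolynomial (Fin r × Fin (E + 2)) ℂ, Φ ≠ 0 ∧
      ∀ a : Fin r × Fin (E + 2) → ℂ, eval a Φ ≠ 0 →
        (∀ k ≤ k₀, hilb d a k = fro (E + 2) r d k) ∧
        ((k₀ + E + 1).choose (E + 1) ≤ r * (k₀ + 1 - d + E).choose (E + 1) →
          ∀ k, hilb d a k = fro (E + 2) r d k) := by
  classical
  have hv := fun k : ℕ => fun hk : k ≤ k₀ => value (E := E) (r := r) (d := d) (k := k)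
    (fun h => hG k h hk)
  choose Φ hΦ hΦ' using hv
  refine ⟨∏ k ∈ (Finset.range (k₀ + 1)).attach, Φ k.1 (by
      have := Finset.mem_range.1 k.2
      omega), Finset.prod_ne_zero_iff.2 fun k _ => hΦ _ _, fun a ha => ?_⟩
  rw [map_prod, Finset.prod_ne_zero_iff] at ha
  have h1 : ∀ k ≤ k₀, hilb d a k = max 0 (co (E + 2) r d k) := by
    intro k hk
    rw [co_eq hd (hk.trans hk₀)]
    exact (hΦ' k hk a (ha ⟨k, Finset.mem_range.2 (by omega)⟩ (Finset.mem_attach _ _))).2
  obtain ⟨f, hf⟩ : ∃ f : Fin r → MvPolynomial (Fin (E + 2)) ℂ, f =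
    fun s => TH176.FB.lf (fun i => a (s, i)) ^ d := ⟨_, rfl⟩
  have h2 : ∀ k, hilb d a k = TH206.Fro.hilb f k := by
    intro k
    rw [hf]
    rfl
  have h3 : ∀ k, hilb d a k = ((TH206.Fro.Mon (E + 2) k).card : ℤ) -
      Module.finrank ℂ (TH176.FB.ik f k) := by
    intro k
    have h4 : Module.finrank ℂ (MvPolynomial.homogeneousSubmodule (Fin (E + 2)) ℂ k) =
      (TH206.Fro.Mon (E + 2) k).card := TH206.Fro.dim_thm (E + 2) k ℂ
    rw [← h4, hf]
    rfl
  have h4 : ∀ j ≤ k₀, co (E + 2) r d j ≤ 0 → ∀ k, j ≤ k → hilb d a k = 0 := by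
    intro j hj hc k hk
    rw [h2]
    refine TH176.FB.hilb_zero_of_top f k (TH176.FB.ik_top_mono f j k hk
      (TH176.FB.ik_top_of_card f j ?_))
    have h5 := h1 j hj
    rw [max_eq_left hc, h3] at h5
    omega
  have h5 : ∀ k ≤ k₀, hilb d a k = fro (E + 2) r d k := by
    intro k hk
    unfold fro
    split_ifs with hall
    · rw [h1 k hk, max_eq_right (hall k le_rfl).le]
    · push Not at hall
      obtain ⟨j, hjk, hj⟩ := hall
      exact h4 j (hjk.trans hk) hj k hjk
  refine ⟨h5, fun hz k => ?_⟩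
  rcases Nat.le_total k k₀ with hk | hk
  · exact h5 k hk
  · have h6 : co (E + 2) r d k₀ ≤ 0 := by
      rw [co_eq hd hk₀, sub_nonpos]
      exact_mod_cast hz
    rw [h4 k₀ le_rfl h6 k hk]
    unfold fro
    rw [if_neg]
    intro hall
    exact absurd (hall k₀ hk) (not_lt.2 h6)

end Pool.Agent.H93.PI
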