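import Mathlib
import Pool.Agent.H93.PI.Bridge

set_option autoImplicit false

/-!
# Uniform bounds for the power ideals
-/

namespace Pool.Agent.H93.PI

open MvPolynomial

/-- In the range `k ≤ d - 1 + (k / 729) ^ (1 / 4)` for every number of variables, if the uniform theorem for
fat points is known. -/
theorem uniA (hGA : ∀ {E m D : ℕ}, 1 ≤ E → 1 ≤ m → 729 * m ^ 4 ≤ D → W608.PR.G ℂ E m D)
    (n r d k₀ : ℕ) (hn : 3 ≤ n) (hd : 1 ≤ d) (hk₀ : 729 * (k₀ + 1 - d) ^ 4 ≤ k₀) :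
    ∃ Φ : MvPolynomial (Fin r × Fin n) ℂ, Φ ≠ 0 ∧
      ∀ a : Fin r × Fin n → ℂ, eval a Φ ≠ 0 →
        (∀ k ≤ k₀, hilb d a k = fro n r d k) ∧
        ((k₀ + n - 1).choose (n - 1) ≤ r * (k₀ + n - 1 - d).choose (n - 1) →
          ∀ k, hilb d a k = fro n r d k) := by
  obtain ⟨E, rfl⟩ : ∃ E, n = E + 2 := ⟨n - 2, by omega⟩
  have h1 : ∀ k, k ≤ k₀ → 729 * (k + 1 - d) ^ 4 ≤ k := by
    intro k hk
    induction k₀, hk using Nat.le_induction with
    | base => exact hk₀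
    | succ j hj ih =>
      refine ih ?_
      rcases Nat.lt_or_ge j d with h | h
      · have : j + 1 - d = 0 := by omega
        rw [this]
        omega
      · obtain ⟨t, rfl⟩ : ∃ t, j = d + t := ⟨j - d, by omega⟩
        have e1 : d + t + 1 + 1 - d = t + 2 := by omega
        have e2 : d + t + 1 - d = t + 1 := by omega
        rw [e1] at hk₀
        rw [e2]
        have e3 : (t + 2) ^ 4 = (t + 1) ^ 4 + (4 * (t + 1) ^ 3 + 6 * (t + 1) ^ 2 + 4 * (t + 1) + 1) := by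
          ring
        rw [e3] at hk₀
        omega
  have h2 : k₀ ≤ 2 * d - 1 := by
    by_contra hcon
    push Not at hcon
    have h3 : k₀ + 1 - d ≤ (k₀ + 1 - d) ^ 4 := Nat.le_self_pow (by norm_num) _
    omega
  obtain ⟨Φ, hΦ, hΦ'⟩ := main_fro (E := E) (r := r) hd h2 fun k hdk hk =>
    hGA (E := E) (by omega) (by omega) (h1 k hk)
  refine ⟨Φ, hΦ, fun a ha => ⟨(hΦ' a ha).1, fun hz => (hΦ' a ha).2 ?_⟩⟩
  have e1 : k₀ + (E + 2) - 1 = k₀ + E + 1 := by omega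
  have e2 : E + 2 - 1 = E + 1 := by omega
  have e3 : k₀ + (E + 2) - 1 - d = k₀ + E + 1 - d := by omega
  rw [e1, e2] at hz
  refine hz.trans (Nat.mul_le_mul_left _ (Nat.choose_le_choose _ ?_))
  omega

/-- In the range `3 k ≤ 4 (d - 1)` for every large number of variables, if the linear bound for
fat points in high dimensions is known. -/
theorem uniB (hGB : ∀ {m : ℕ}, 1 ≤ m → ∃ E0 : ℕ, ∀ E, E0 ≤ E → W608.PR.G ℂ E m (4 * m))
    (d : ℕ) (hd : 1 ≤ d) :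
    ∃ n₀ : ℕ, ∀ n r k₀ : ℕ, n₀ ≤ n → 3 * k₀ + 4 ≤ 4 * d →
      ∃ Φ : MvPolynomial (Fin r × Fin n) ℂ, Φ ≠ 0 ∧
        ∀ a : Fin r × Fin n → ℂ, eval a Φ ≠ 0 →
          (∀ k ≤ k₀, hilb d a k = fro n r d k) ∧
          ((k₀ + n - 1).choose (n - 1) ≤ r * (k₀ + n - 1 - d).choose (n - 1) →
            ∀ k, hilb d a k = fro n r d k) := by
  classical
  choose! E0 hE0 using fun m : ℕ => fun hm : 1 ≤ m => hGB (m := m) hm
  refine ⟨(Finset.range (d + 1)).sup E0 + 2, fun n r k₀ hn hk₀ => ?_⟩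
  obtain ⟨E, rfl⟩ : ∃ E, n = E + 2 := ⟨n - 2, by omega⟩
  have h2 : k₀ ≤ 2 * d - 1 := by omega
  obtain ⟨Φ, hΦ, hΦ'⟩ := main_fro (E := E) (r := r) hd h2 fun k hdk hk => by
    have h3 : E0 (k + 1 - d) ≤ (Finset.range (d + 1)).sup E0 :=
      Finset.le_sup (Finset.mem_range.2 (by omega))
    intro s w hw d' hd' htot
    exact hE0 (k + 1 - d) (by omega) E (by omega) s w hw d' (by omega) htot
  refine ⟨Φ, hΦ, fun a ha => ⟨(hΦ' a ha).1, fun hz => (hΦ' a ha).2 ?_⟩⟩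
  have e1 : k₀ + (E + 2) - 1 = k₀ + E + 1 := by omega
  have e2 : E + 2 - 1 = E + 1 := by omega
  have e3 : k₀ + (E + 2) - 1 - d = k₀ + E + 1 - d := by omega
  rw [e1, e2] at hz
  refine hz.trans (Nat.mul_le_mul_left _ (Nat.choose_le_choose _ ?_))
  omega

end Pool.Agent.H93.PI
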