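import Mathlib
import Pool.Agent.H93.PI.Bridge

set_option autoImplicit false

/-!
# A linear range for the power ideals in at least as many variables
-/

namespace Pool.Agent.H93.PI

open MvPolynomial

/-- In the range `k ≤ 128 (d - 1) / 127` for at least `k + 2 - d` variables, if the linear bound for
fat points is known. -/
theorem uniC (hGC : ∀ {E m D : ℕ}, 3 ≤ E → 1 ≤ m → m ≤ E + 1 → 128 * m ≤ D → W608.PR.G ℂ E m D)
    (n r d k₀ : ℕ) (hn : 5 ≤ n) (hd : 1 ≤ d) (hnk : k₀ + 2 ≤ n + d) (hk₀ : 127 * k₀ ≤ 128 * (d - 1)) :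
    ∃ Φ : MvPolynomial (Fin r × Fin n) ℂ, Φ ≠ 0 ∧
      ∀ a : Fin r × Fin n → ℂ, eval a Φ ≠ 0 → ∀ k : ℕ,
        (k ≤ k₀ ∨ co n r d k₀ ≤ 0) → hilb d a k = fro n r d k := by
  obtain ⟨E, rfl⟩ : ∃ E, n = E + 2 := ⟨n - 2, by omega⟩
  have h2 : k₀ ≤ 2 * d - 1 := by omega
  obtain ⟨Φ, hΦ, hΦ'⟩ := main_fro (E := E) (r := r) hd h2 fun k hdk hk =>
    hGC (E := E) (m := k + 1 - d) (D := k) (by omega) (by omega) (by omega) (by omega)
  refine ⟨Φ, hΦ, fun a ha k hk => ?_⟩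
  rcases hk with hk | hk
  · exact (hΦ' a ha).1 k hk
  · refine (hΦ' a ha).2 ?_ k
    rw [co_eq hd h2, sub_nonpos] at hk
    exact_mod_cast hk

end Pool.Agent.H93.PI
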