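import Mathlib
import Pool.Agent.H93.PI.Bridge

set_option autoImplicit false

/-!
# A range for the power ideals that is linear if its length is of the order of the number of variables
-/

namespace Pool.Agent.H93.PI

open MvPolynomial

/-- The range of the theorems C and V of project FU, for `n = E + 3 ≥ 5` variables. -/
theorem uniV (hGC : ∀ {E m D : ℕ}, 3 ≤ E → 1 ≤ m → m ≤ E + 1 → 128 * m ≤ D → W608.PR.G ℂ E m D)
    (hGV : ∀ {E m D : ℕ}, 2 ≤ E → 1 ≤ m → 1024 * m * (E + 2 + m) ^ 2 ≤ (E + 2) ^ 2 * D →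
      W608.PR.G ℂ (E + 1) m D)
    (n r d k₀ : ℕ) (hn : 5 ≤ n) (hd : 1 ≤ d)
    (hk₀ : (k₀ + 1 - d ≤ n - 1 ∧ 128 * (k₀ + 1 - d) ≤ k₀) ∨
      1024 * (k₀ + 1 - d) * (n - 1 + (k₀ + 1 - d)) ^ 2 ≤ (n - 1) ^ 2 * k₀) :
    ∃ Φ : MvPolynomial (Fin r × Fin n) ℂ, Φ ≠ 0 ∧
      ∀ a : Fin r × Fin n → ℂ, eval a Φ ≠ 0 → ∀ k : ℕ,
        (k ≤ k₀ ∨ co n r d k₀ ≤ 0) → hilb d a k = fro n r d k := by
  obtain ⟨E, rfl⟩ : ∃ E, n = E + 3 := ⟨n - 3, by omega⟩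
  rw [show E + 3 - 1 = E + 2 by omega] at hk₀
  have h1 : ∀ k, d ≤ k → k ≤ k₀ → W608.PR.G ℂ (E + 1) (k + 1 - d) k := by
    intro k hdk hk
    rcases hk₀ with ⟨h3, h4⟩ | hk₀
    · exact hGC (E := E + 1) (by omega) (by omega) (by omega) (by omega)
    · refine hGV (by omega) (by omega) ?_
      have hk0 : 0 < k₀ := by omega
      have h3 : (k + 1 - d) * k₀ ≤ (k₀ + 1 - d) * k := by
        obtain ⟨t, rfl⟩ : ∃ t, k = d + t := ⟨k - d, by omega⟩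
        obtain ⟨s, rfl⟩ : ∃ s, k₀ = d + t + s := ⟨k₀ - (d + t), by omega⟩
        have e1 : d + t + 1 - d = t + 1 := by omega
        have e2 : d + t + s + 1 - d = t + s + 1 := by omega
        rw [e1, e2]
        have h4 : s ≤ s * d := Nat.le_mul_of_pos_right s hd
        have h5 : (t + 1) * (d + t + s) + s * d = (t + s + 1) * (d + t) + s := by ring
        omega
      have h4 : (E + 2 + (k + 1 - d)) ^ 2 ≤ (E + 2 + (k₀ + 1 - d)) ^ 2 :=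
        Nat.pow_le_pow_left (by omega) _
      refine le_of_mul_le_mul_right (?_ : _ * k₀ ≤ _ * k₀) hk0
      calc 1024 * (k + 1 - d) * (E + 2 + (k + 1 - d)) ^ 2 * k₀
          = 1024 * (((k + 1 - d) * k₀) * (E + 2 + (k + 1 - d)) ^ 2) := by ring
        _ ≤ 1024 * (((k₀ + 1 - d) * k) * (E + 2 + (k₀ + 1 - d)) ^ 2) :=
            Nat.mul_le_mul_left _ (Nat.mul_le_mul h3 h4)
        _ = (1024 * (k₀ + 1 - d) * (E + 2 + (k₀ + 1 - d)) ^ 2) * k := by ring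
        _ ≤ ((E + 2) ^ 2 * k₀) * k := Nat.mul_le_mul_right _ hk₀
        _ = (E + 2) ^ 2 * k * k₀ := by ring
  have h2 : k₀ ≤ 2 * d - 1 := by
    rcases hk₀ with ⟨h3, h4⟩ | hk₀
    · omega
    · by_contra hcon
      push Not at hcon
      have h3 : k₀ < 2 * (k₀ + 1 - d) := by omega
      have h4 : (E + 2) ^ 2 * k₀ < (E + 2 + (k₀ + 1 - d)) ^ 2 * (2 * (k₀ + 1 - d)) := by
        calc (E + 2) ^ 2 * k₀ ≤ (E + 2 + (k₀ + 1 - d)) ^ 2 * k₀ :=
              Nat.mul_le_mul_right _ (Nat.pow_le_pow_left (by omega) _)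
          _ < (E + 2 + (k₀ + 1 - d)) ^ 2 * (2 * (k₀ + 1 - d)) :=
              Nat.mul_lt_mul_of_pos_left h3 (by positivity)
      have h5 : (E + 2 + (k₀ + 1 - d)) ^ 2 * (2 * (k₀ + 1 - d)) ≤
          1024 * (k₀ + 1 - d) * (E + 2 + (k₀ + 1 - d)) ^ 2 := by
        calc (E + 2 + (k₀ + 1 - d)) ^ 2 * (2 * (k₀ + 1 - d))
            = 2 * ((k₀ + 1 - d) * (E + 2 + (k₀ + 1 - d)) ^ 2) := by ring
          _ ≤ 1024 * ((k₀ + 1 - d) * (E + 2 + (k₀ + 1 - d)) ^ 2) :=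
            Nat.mul_le_mul_right _ (by norm_num)
          _ = _ := by ring
      omega
  obtain ⟨Φ, hΦ, hΦ'⟩ := main_fro (E := E + 1) (r := r) hd h2 h1
  refine ⟨Φ, hΦ, fun a ha k hk => ?_⟩
  rcases hk with hk | hk
  · exact (hΦ' a ha).1 k hk
  · refine (hΦ' a ha).2 ?_ k
    have h6 := co_eq (E := E + 1) (r := r) (k := k₀) hd h2
    rw [show E + 3 = E + 1 + 2 by ring, h6, sub_nonpos] at hk
    exact_mod_cast hk

end Pool.Agent.H93.PI
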