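import Mathlib
import Pool.Agent.H93.PI.Bridge

set_option autoImplicit false

/-!
# Further ranges for the power ideals
-/

namespace Pool.Agent.H93.PI

open MvPolynomial

/-- In the range `2 k ≤ 3 d - 2` for every large number of variables, if the linear bound for
fat points in high dimensions is known. -/
theorem uniW (hGB : ∀ {m : ℕ}, 1 ≤ m → ∃ E0 : ℕ, ∀ E, E0 ≤ E → W608.PR.G ℂ E m (3 * m - 1))
    (d : ℕ) (hd : 1 ≤ d) :
    ∃ n₀ : ℕ, ∀ n r k₀ : ℕ, n₀ ≤ n → 2 * k₀ + 2 ≤ 3 * d →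
      ∃ Φ : MvPolynomial (Fin r × Fin n) ℂ, Φ ≠ 0 ∧
        ∀ a : Fin r × Fin n → ℂ, eval a Φ ≠ 0 → ∀ k : ℕ,
          (k ≤ k₀ ∨ co n r d k₀ ≤ 0) → hilb d a k = fro n r d k := by
  classical
  choose! E0 hE0 using fun m : ℕ => fun hm : 1 ≤ m => hGB (m := m) hm
  refine ⟨(Finset.range (d + 1)).sup E0 + 2, fun n r k₀ hn hk₀ => ?_⟩
  obtain ⟨E, rfl⟩ : ∃ E, n = E + 2 := ⟨n - 2, by omega⟩
  have h2 : k₀ ≤ 2 * d - 1 := by omega
  obtain ⟨Φ, hΦ, hΦ'⟩ := main_fro (E := E) (r := r) hd h2 fun k hdk hk => by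
    have h3 : E0 (k + 1 - d) ≤ (Finset.range (d + 1)).sup E0 :=
      Finset.le_sup (Finset.mem_range.2 (by omega))
    intro s w hw d' hd' htot
    exact hE0 (k + 1 - d) (by omega) E (by omega) s w hw d' (by omega) htot
  refine ⟨Φ, hΦ, fun a ha k hk => ?_⟩
  rcases hk with hk | hk
  · exact (hΦ' a ha).1 k hk
  · refine (hΦ' a ha).2 ?_ k
    rw [co_eq hd h2, sub_nonpos] at hk
    exact_mod_cast hk

/-- The range of theorem U of project FU, for `n = E + 3 ≥ 4` variables. -/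
theorem uniU (hGU : ∀ {E m D : ℕ}, 1 ≤ E → 1 ≤ m → 64 ^ E * m ^ (2 * E + 2) ≤ D ^ E →
      W608.PR.G ℂ (E + 1) m D)
    (E r d k₀ : ℕ) (hE : 1 ≤ E) (hd : 1 ≤ d)
    (hk₀ : 64 ^ E * (k₀ + 1 - d) ^ (2 * E + 2) ≤ k₀ ^ E) :
    ∃ Φ : MvPolynomial (Fin r × Fin (E + 3)) ℂ, Φ ≠ 0 ∧
      ∀ a : Fin r × Fin (E + 3) → ℂ, eval a Φ ≠ 0 → ∀ k : ℕ,
        (k ≤ k₀ ∨ co (E + 3) r d k₀ ≤ 0) → hilb d a k = fro (E + 3) r d k := by
  have h1 : ∀ k, d ≤ k → k ≤ k₀ → 64 ^ E * (k + 1 - d) ^ (2 * E + 2) ≤ k ^ E := by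
    intro k hdk hk
    have hk0 : 0 < k₀ := by omega
    have h3 : (k + 1 - d) * k₀ ≤ (k₀ + 1 - d) * k := by
      obtain ⟨t, rfl⟩ : ∃ t, k = d + t := ⟨k - d, by omega⟩
      obtain ⟨s, rfl⟩ : ∃ s, k₀ = d + t + s := ⟨k₀ - (d + t), by omega⟩
      have e1 : d + t + 1 - d = t + 1 := by omega
      have e2 : d + t + s + 1 - d = t + s + 1 := by omega
      rw [e1, e2]
      have h4 : s ≤ s * d := Nat.le_mul_of_pos_right s hd
      have h5 : (t + 1) * (d + t + s) + s * d = (t + s + 1) * (d + t) + s := by ring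
      omega
    have h4 : (k + 1 - d) ^ (E + 2) ≤ (k₀ + 1 - d) ^ (E + 2) :=
      Nat.pow_le_pow_left (by omega) _
    have h5 : (k + 1 - d) ^ E * k₀ ^ E ≤ (k₀ + 1 - d) ^ E * k ^ E := by
      rw [← mul_pow, ← mul_pow]
      exact Nat.pow_le_pow_left h3 _
    refine le_of_mul_le_mul_right (?_ : _ * k₀ ^ E ≤ _ * k₀ ^ E) (Nat.pow_pos hk0)
    calc 64 ^ E * (k + 1 - d) ^ (2 * E + 2) * k₀ ^ E
        = 64 ^ E * ((k + 1 - d) ^ (E + 2) * ((k + 1 - d) ^ E * k₀ ^ E)) := by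
          rw [show 2 * E + 2 = (E + 2) + E by ring, pow_add]
          ring
      _ ≤ 64 ^ E * ((k₀ + 1 - d) ^ (E + 2) * ((k₀ + 1 - d) ^ E * k ^ E)) :=
          Nat.mul_le_mul_left _ (Nat.mul_le_mul h4 h5)
      _ = (64 ^ E * (k₀ + 1 - d) ^ (2 * E + 2)) * k ^ E := by
          rw [show 2 * E + 2 = (E + 2) + E by ring, pow_add]
          ring
      _ ≤ k₀ ^ E * k ^ E := Nat.mul_le_mul_right _ hk₀
      _ = k ^ E * k₀ ^ E := mul_comm _ _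
  have h2 : k₀ ≤ 2 * d - 1 := by
    by_contra hcon
    push Not at hcon
    have h3 : k₀ < 2 * (k₀ + 1 - d) := by omega
    have h4 : k₀ ^ E < (2 * (k₀ + 1 - d)) ^ E := Nat.pow_lt_pow_left h3 (by omega)
    have h5 : (2 * (k₀ + 1 - d)) ^ E ≤ 64 ^ E * (k₀ + 1 - d) ^ (2 * E + 2) := by
      rw [mul_pow]
      exact Nat.mul_le_mul (Nat.pow_le_pow_left (by norm_num) _)
        (Nat.pow_le_pow_right (by omega) (by omega))
    omega
  obtain ⟨Φ, hΦ, hΦ'⟩ := main_fro (E := E + 1) (r := r) hd h2 fun k hdk hk =>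
    hGU (E := E) hE (by omega) (h1 k hdk hk)
  refine ⟨Φ, hΦ, fun a ha k hk => ?_⟩
  rcases hk with hk | hk
  · exact (hΦ' a ha).1 k hk
  · refine (hΦ' a ha).2 ?_ k
    have h6 := co_eq (E := E + 1) (r := r) (k := k₀) hd h2
    rw [show E + 3 = E + 1 + 2 by ring, h6, sub_nonpos] at hk
    exact_mod_cast hk

end Pool.Agent.H93.PI
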