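import Mathlib
import Pool.Agent.H93.PI.Bridge

set_option autoImplicit false

/-!
# The range `k ≤ d - 1 + log (n - 1) / log 200`, `2 k ≤ 3 d - 2` for the power ideals
-/

namespace Pool.Agent.H93.PI

open MvPolynomial

/-- In the range `2 k ≤ 3 d - 2` for more than `200 ^ (k + 1 - d)` variables, if the linear bound for
fat points in high dimensions is known. -/
theorem uniX (hGX : ∀ {E m : ℕ}, 2 ≤ m → 200 ^ m ≤ E + 2 → W608.PR.G ℂ (E + 1) m (3 * m - 1))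
    (hG1 : ∀ E D : ℕ, W608.PR.G ℂ (E + 1) 1 D)
    (n r d k₀ : ℕ) (hn : 200 ^ (k₀ + 1 - d) + 1 ≤ n) (hd : 1 ≤ d) (hk₀ : 2 * k₀ + 2 ≤ 3 * d) :
    ∃ Φ : MvPolynomial (Fin r × Fin n) ℂ, Φ ≠ 0 ∧
      ∀ a : Fin r × Fin n → ℂ, eval a Φ ≠ 0 → ∀ k : ℕ,
        (k ≤ k₀ ∨ co n r d k₀ ≤ 0) → hilb d a k = fro n r d k := by
  have h0 : 0 < 200 ^ (k₀ + 1 - d) := by positivity
  obtain ⟨E, rfl⟩ : ∃ E, n = E + 2 := ⟨n - 2, by omega⟩
  have h2 : k₀ ≤ 2 * d - 1 := by omega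
  obtain ⟨Φ, hΦ, hΦ'⟩ := main_fro (E := E) (r := r) hd h2 fun k hdk hk => by
    have h3 : 200 ^ 1 ≤ 200 ^ (k₀ + 1 - d) := Nat.pow_le_pow_right (by norm_num) (by omega)
    obtain ⟨E, rfl⟩ : ∃ E', E = E' + 1 := ⟨E - 1, by omega⟩
    obtain ⟨m, hm⟩ : ∃ m, m = k + 1 - d := ⟨_, rfl⟩
    rw [← hm]
    rcases Nat.lt_or_ge m 2 with h4 | h4
    · obtain rfl : m = 1 := by omega
      exact hG1 E k
    · have h5 : 200 ^ m ≤ 200 ^ (k₀ + 1 - d) := Nat.pow_le_pow_right (by norm_num) (by omega)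
      intro s w hw d' hd' htot
      exact hGX h4 (by omega) s w hw d' (by omega) htot
  refine ⟨Φ, hΦ, fun a ha k hk => ?_⟩
  rcases hk with hk | hk
  · exact (hΦ' a ha).1 k hk
  · refine (hΦ' a ha).2 ?_ k
    rw [co_eq hd h2, sub_nonpos] at hk
    exact_mod_cast hk

end Pool.Agent.H93.PI
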